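import Pool.Agent.Q231.LQ.Cor
import Pool.Agent.NPC.Classes
import Pool.Agent.NPC.Dec

/-!
# Maximum pairwise stable matchings are NP-hard to find even if all lower quotas are at most two

`ProblemA (I, k)` says that `I` is an instance of residents and hospitals with quotas, in which all
lower quotas are at most `2`, with a pairwise stable matching of size at least `k`.  `ProblemB` is
the same for popular pairwise stable matchings (all popular hospitals are open).

The reduction is from not-all-equal satisfiability.  All residents of the hospital of a variable rank
it first, apart from a private hospital that can never be open; so the hospital takes all of them or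
none.  A hospital with both quotas equal to `2` and two residents serves as a negation, and hospitals
with upper quota `2` and three residents serve as clauses.
-/

set_option autoImplicit false

namespace Pool.Agent.Results.MP_52010b_lc.LowerQuotaTwoNPHard

open Pool.Agent.NPC Pool.Agent.Q231.LQ

/-- **Problems A and B are NP-hard for instances all of whose lower quotas are at most two.**  In
particular, if one of them is solvable in polynomial time then `P = NP`. -/
theorem result :
    NPHardP ProblemA ∧ NPHardP ProblemB ∧
    (InPP ProblemA → ∀ L : Set (List Bool), InNP L → InP L) ∧
    (InPP ProblemB → ∀ L : Set (List Bool), InNP L → InP L) :=
  ⟨hardA.toNPHardP, hardB.toNPHardP, fun h => NPHard.collapse hardA.toNPHardP h,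
    fun h => NPHard.collapse hardB.toNPHardP h⟩

end Pool.Agent.Results.MP_52010b_lc.LowerQuotaTwoNPHard
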